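import Pool.Agent.H22.Paw

set_option autoImplicit false

namespace Pool.Agent.Results.MP_3e1815_co.Counter

open Pool.Agent.H22.Paw

theorem result : ∃ (F : SimpleGraph (Fin 4)) (G : SimpleGraph (Fin 19)),
    F.Connected ∧ G.Connected ∧ Free G F 2 ∧ Free F G 2 ∧ ¬ Rel 3 F G := by
  refine ⟨paw, G, paw_conn, G_conn, ⟨fun _ => 0, fun f => ?_⟩, free_paw_G, not_rel⟩
  have := Fintype.card_le_of_injective f f.injective
  simp at this

end Pool.Agent.Results.MP_3e1815_co.Counter
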